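import Mathlib

/-!
Project EC (helper78), task B9: the mean values of `D/phi(D)`.
-/

set_option autoImplicit false

namespace Pool.Agent.W125.EC

open Finset

lemma totient_prod (s : Finset ℕ) (hs : ∀ p ∈ s, p.Prime) :
    Nat.totient (∏ p ∈ s, p) = ∏ p ∈ s, (p - 1) := by
  classical
  induction s using Finset.induction_on with
  | empty => simp
  | insert a s ha ih =>
    rw [prod_insert ha, prod_insert ha, Nat.totient_mul, ih (fun p hp => hs p (mem_insert_of_mem hp)),
      Nat.totient_prime (hs a (mem_insert_self _ _))]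
    apply Nat.Coprime.prod_right
    intro p hp
    rw [Nat.coprime_primes (hs a (mem_insert_self _ _)) (hs p (mem_insert_of_mem hp))]
    rintro rfl
    exact ha hp

/-- `k / φ(k) = ∑_{d ∣ k} μ²(d)/φ(d)` -/
theorem div_totient (k : ℕ) (hk : 1 ≤ k) :
    (k : ℝ) / Nat.totient k = ∑ d ∈ k.divisors.filter Squarefree, (1 : ℝ) / Nat.totient d := by
  have hk0 : k ≠ 0 := by omega
  have htot : (0 : ℝ) < Nat.totient k := by exact_mod_cast Nat.totient_pos.2 hk
  have h1 : (k : ℝ) / Nat.totient k = ∏ p ∈ k.primeFactors, (1 + 1 / ((p : ℝ) - 1)) := by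
    have h2 := Nat.totient_mul_prod_primeFactors k
    have h3 : (Nat.totient k : ℝ) * ∏ p ∈ k.primeFactors, (p : ℝ) =
        k * ∏ p ∈ k.primeFactors, ((p : ℝ) - 1) := by
      have : ((Nat.totient k * ∏ p ∈ k.primeFactors, p : ℕ) : ℝ) =
          ((k * ∏ p ∈ k.primeFactors, (p - 1) : ℕ) : ℝ) := by rw [h2]
      push_cast at this
      rw [this]
      congr 1
      apply prod_congr rfl
      intro p hp
      have := (Nat.prime_of_mem_primeFactors hp).one_le
      push_cast [Nat.cast_sub this]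
      ring
    have h4 : ∏ p ∈ k.primeFactors, ((p : ℝ) - 1) ≠ 0 := by
      rw [prod_ne_zero_iff]
      intro p hp
      have : (1 : ℝ) < p := by exact_mod_cast (Nat.prime_of_mem_primeFactors hp).one_lt
      linarith
    have h5 : ∏ p ∈ k.primeFactors, (1 + 1 / ((p : ℝ) - 1)) =
        (∏ p ∈ k.primeFactors, (p : ℝ)) / ∏ p ∈ k.primeFactors, ((p : ℝ) - 1) := by
      rw [← prod_div_distrib]
      apply prod_congr rfl
      intro p hp
      have : (1 : ℝ) < p := by exact_mod_cast (Nat.prime_of_mem_primeFactors hp).one_lt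
      have h6 : (p : ℝ) - 1 ≠ 0 := by linarith
      field_simp
      ring
    rw [h5, div_eq_div_iff htot.ne' h4]
    linarith
  rw [h1, prod_one_add]
  rw [Nat.sum_divisors_filter_squarefree hk0]
  have hpf : (UniqueFactorizationMonoid.normalizedFactors k).toFinset = k.primeFactors := by
    rw [Nat.factors_eq]
    ext p
    simp [Nat.mem_primeFactorsList, Nat.mem_primeFactors]
  rw [hpf]
  apply sum_congr rfl
  · intro s hs
    rw [mem_powerset] at hs
    have hp : ∀ p ∈ s, p.Prime := fun p hp => Nat.prime_of_mem_primeFactors (hs hp)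
    rw [Finset.prod_val]
    rw [show (s.prod id) = ∏ p ∈ s, p from rfl, totient_prod s hp]
    push_cast
    rw [one_div, ← prod_inv_distrib]
    apply prod_congr rfl
    intro p hpp
    have := (hp p hpp).one_le
    rw [Nat.cast_sub this]
    simp

lemma sqf_le {h : ℕ} (hh : Squarefree h) : (h : ℝ) ≤ 2 * (Nat.totient h : ℝ) ^ 2 := by
  have h1 : (h : ℝ) = ∏ p ∈ h.primeFactors, (p : ℝ) := by
    conv_lhs => rw [← Nat.prod_primeFactors_of_squarefree hh]
    push_cast
    rfl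
  have h2 : (Nat.totient h : ℝ) = ∏ p ∈ h.primeFactors, ((p : ℝ) - 1) := by
    conv_lhs => rw [← Nat.prod_primeFactors_of_squarefree hh]
    rw [totient_prod _ (fun p hp => Nat.prime_of_mem_primeFactors hp)]
    push_cast
    refine prod_congr rfl fun p hp => ?_
    rw [Nat.cast_sub (Nat.prime_of_mem_primeFactors hp).one_le]
    simp
  have h3 : ∏ p ∈ h.primeFactors, (if p = 2 then (2 : ℝ) else 1) ≤ 2 := by
    rw [prod_ite_eq']
    split_ifs <;> norm_num
  calc (h : ℝ) = ∏ p ∈ h.primeFactors, (p : ℝ) := h1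
    _ ≤ ∏ p ∈ h.primeFactors, ((if p = 2 then (2 : ℝ) else 1) * ((p : ℝ) - 1) ^ 2) := by
        refine prod_le_prod (fun p _ => by positivity) fun p hp => ?_
        have hp2 := (Nat.prime_of_mem_primeFactors hp).two_le
        by_cases h4 : p = 2
        · rw [if_pos h4, h4]; norm_num
        · rw [if_neg h4, one_mul]
          have h5 : (3 : ℝ) ≤ p := by exact_mod_cast (by omega : 3 ≤ p)
          nlinarith
    _ = (∏ p ∈ h.primeFactors, (if p = 2 then (2 : ℝ) else 1)) * (Nat.totient h : ℝ) ^ 2 := by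
        rw [prod_mul_distrib, prod_pow, h2]
    _ ≤ 2 * (Nat.totient h : ℝ) ^ 2 := mul_le_mul_of_nonneg_right h3 (by positivity)

open scoped Classical in
/-- the coefficients -/
noncomputable def gg (h : ℕ) : ℝ := if Squarefree h then 1 / ((h : ℝ) * Nat.totient h) else 0

lemma gg_nonneg (h : ℕ) : 0 ≤ gg h := by
  unfold gg
  split_ifs <;> positivity

lemma gg_summable : Summable gg := by
  have h1 : Summable (fun n : ℕ => 2 * (1 / (n : ℝ) ^ (3 / 2 : ℝ))) :=
    (Real.summable_one_div_nat_rpow.2 (by norm_num)).mul_left 2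
  refine Summable.of_nonneg_of_le gg_nonneg (fun h => ?_) h1
  unfold gg
  split_ifs with hh
  · have hpos : 0 < h := Nat.pos_of_ne_zero hh.ne_zero
    have hpos' : (0 : ℝ) < h := by exact_mod_cast hpos
    have ht : (0 : ℝ) < Nat.totient h := by exact_mod_cast Nat.totient_pos.2 hpos
    have h2 := sqf_le hh
    have h3 : Real.sqrt h ≤ 2 * (Nat.totient h : ℝ) := by
      rw [Real.sqrt_le_left (by positivity)]
      nlinarith [sq_nonneg (Nat.totient h : ℝ)]
    have h4 : (h : ℝ) ^ (3 / 2 : ℝ) = h * Real.sqrt h := by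
      rw [show (3 / 2 : ℝ) = 1 + 1 / 2 by norm_num, Real.rpow_add hpos', Real.rpow_one,
        Real.sqrt_eq_rpow]
    have h5 : 0 < Real.sqrt h := Real.sqrt_pos.2 hpos'
    rw [h4, mul_one_div, div_le_div_iff₀ (by positivity) (by positivity)]
    nlinarith
  · positivity

lemma count_le (N h : ℕ) (hh : 1 ≤ h) :
    (((Icc 1 N).filter (fun D => h ∣ D)).card : ℝ) ≤ N / h := by
  have h1 : Icc 1 N = Ioc 0 N := by ext x; simp [Nat.succ_le_iff]
  rw [h1, Nat.Ioc_filter_dvd_card_eq_div]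
  exact Nat.cast_div_le

open scoped Classical in
/-- the tail of the divisor sum -/
noncomputable def tl (h₀ D : ℕ) : ℝ :=
  ∑ h ∈ (D.divisors.filter Squarefree).filter (fun h => h₀ < h), (1 : ℝ) / Nat.totient h

lemma tl_nonneg (h₀ D : ℕ) : 0 ≤ tl h₀ D := sum_nonneg fun _ _ => by positivity

open scoped Classical in
lemma tl_sum (h₀ N : ℕ) : ∑ D ∈ Icc 1 N, tl h₀ D ≤
    N * ∑ h ∈ (Icc 1 N).filter (fun h => h₀ < h), gg h := by
  have e1 : ∀ D ∈ Icc 1 N, tl h₀ D = ∑ h ∈ (Icc 1 N).filter (fun h => h₀ < h),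
      (if h ∣ D then (if Squarefree h then (1 : ℝ) / Nat.totient h else 0) else 0) := by
    intro D hD
    rw [mem_Icc] at hD
    unfold tl
    rw [← sum_filter, ← sum_filter]
    apply sum_congr _ (fun _ _ => rfl)
    ext h
    simp only [mem_filter, Nat.mem_divisors, mem_Icc]
    constructor
    · rintro ⟨⟨⟨h1, h2⟩, h3⟩, h4⟩
      exact ⟨⟨⟨⟨Nat.pos_of_dvd_of_pos h1 (by omega), (Nat.le_of_dvd (by omega) h1).trans hD.2⟩, h4⟩,
        h1⟩, h3⟩
    · rintro ⟨⟨⟨⟨h1, h2⟩, h3⟩, h4⟩, h5⟩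
      exact ⟨⟨⟨h4, by omega⟩, h5⟩, h3⟩
  rw [sum_congr rfl e1, sum_comm, mul_sum]
  refine sum_le_sum fun h hh => ?_
  rw [mem_filter, mem_Icc] at hh
  rw [← sum_filter, sum_const, nsmul_eq_mul]
  have h1 := count_le N h hh.1.1
  have h2 : (0 : ℝ) < h := by exact_mod_cast hh.1.1
  unfold gg
  split_ifs with h3
  · have h4 : (0 : ℝ) < Nat.totient h := by exact_mod_cast Nat.totient_pos.2 hh.1.1
    calc (((Icc 1 N).filter (fun D => h ∣ D)).card : ℝ) * (1 / Nat.totient h) ≤
        (N / h) * (1 / Nat.totient h) := by gcongr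
      _ = N * (1 / ((h : ℝ) * Nat.totient h)) := by
          field_simp
  · simp

theorem tail_small {η : ℝ} (hη : 0 < η) : ∃ h₀ : ℕ, ∀ N : ℕ, ∑ D ∈ Icc 1 N, tl h₀ D ≤ η * N := by
  classical
  obtain ⟨s, hs⟩ := summable_iff_vanishing_norm.1 gg_summable η hη
  refine ⟨s.sup id, fun N => (tl_sum _ N).trans ?_⟩
  have h1 := hs ((Icc 1 N).filter (fun h => s.sup id < h)) (by
    rw [disjoint_left]
    intro h hh hhs
    rw [mem_filter] at hh
    have := le_sup (f := id) hhs
    simp only [id] at this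
    omega)
  have h2 := (le_abs_self _).trans (Real.norm_eq_abs _ ▸ h1.le)
  have h3 : (0 : ℝ) ≤ N := by positivity
  calc (N : ℝ) * ∑ h ∈ (Icc 1 N).filter (fun h => s.sup id < h), gg h ≤ N * η :=
        mul_le_mul_of_nonneg_left (by convert h2) h3
    _ = η * N := mul_comm _ _

theorem avg_le : ∃ C : ℝ, 1 ≤ C ∧ ∀ N : ℕ, ∑ D ∈ Icc 1 N, (D : ℝ) / Nat.totient D ≤ C * N := by
  classical
  refine ⟨1 + ∑' h, gg h, ?_, fun N => ?_⟩
  · have : 0 ≤ ∑' h, gg h := tsum_nonneg gg_nonneg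
    linarith
  have h1 : ∀ D ∈ Icc 1 N, (D : ℝ) / Nat.totient D = tl 0 D := by
    intro D hD
    rw [mem_Icc] at hD
    rw [div_totient D hD.1]
    unfold tl
    apply sum_congr _ (fun _ _ => rfl)
    ext h
    simp only [mem_filter, Nat.mem_divisors]
    constructor
    · rintro ⟨⟨k1, k2⟩, k3⟩
      exact ⟨⟨⟨k1, k2⟩, k3⟩, Nat.pos_of_dvd_of_pos k1 (by omega)⟩
    · rintro ⟨k, _⟩; exact k
  rw [sum_congr rfl h1]
  refine (tl_sum 0 N).trans ?_
  have h2 : ∑ h ∈ (Icc 1 N).filter (fun h => 0 < h), gg h ≤ ∑' h, gg h :=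
    gg_summable.sum_le_tsum _ (fun h _ => gg_nonneg h)
  have h3 : (0 : ℝ) ≤ N := by positivity
  nlinarith [mul_le_mul_of_nonneg_left h2 h3]

/-- the divisor sum, split -/
theorem split (h₀ D : ℕ) (hD : 1 ≤ D) : (D : ℝ) / Nat.totient D =
    ∑ h ∈ (Icc 1 h₀).filter Squarefree, (if h ∣ D then (1 : ℝ) / Nat.totient h else 0) +
      tl h₀ D := by
  classical
  rw [div_totient D hD, ← sum_filter_add_sum_filter_not (D.divisors.filter Squarefree)
    (fun h => h ≤ h₀)]
  congr 1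
  · rw [← sum_filter]
    apply sum_congr _ (fun _ _ => rfl)
    ext h
    simp only [mem_filter, Nat.mem_divisors, mem_Icc]
    constructor
    · rintro ⟨⟨⟨k1, k2⟩, k3⟩, k4⟩
      exact ⟨⟨⟨Nat.pos_of_dvd_of_pos k1 (by omega), k4⟩, k3⟩, k1⟩
    · rintro ⟨⟨⟨k1, k2⟩, k3⟩, k4⟩
      exact ⟨⟨⟨k4, by omega⟩, k3⟩, k2⟩
  · unfold tl
    apply sum_congr _ (fun _ _ => rfl)
    ext h
    simp only [mem_filter, not_le]

end Pool.Agent.W125.EC
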