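import Pool.Agent.W125.EC.Core
import Pool.Agent.W125.EC.Tot

/-!
Project EC (helper78), task B9: the main term of the bilinear estimate.
-/

set_option autoImplicit false

namespace Pool.Agent.W125.EC

open Finset Filter
open Pool.Agent.H376R2.MR
open Pool.Agent.W78.GA
open Pool.Agent.W78.EC
open Pool.Agent.W714.EC (hD01 nmZ decomp mem_cone mem_edge edge_unique)

/-! ### The classes -/

/-- pairs with `h ∣ dt z w` and `xi z w = v` -/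
def SS (h : ℕ) (v : ℤ) (z w : Gi) : Prop := (h : ℤ) ∣ dt z w ∧ xi z w = v

lemma dt_congr {m : ℤ} {z z' w w' : Gi} (h1 : m ∣ z.re - z'.re) (h2 : m ∣ z.im - z'.im)
    (h3 : m ∣ w.re - w'.re) (h4 : m ∣ w.im - w'.im) : m ∣ dt z w - dt z' w' := by
  have e : dt z w - dt z' w' = (z.re - z'.re) * w.im + z'.re * (w.im - w'.im) -
      ((z.im - z'.im) * w.re + z'.im * (w.re - w'.re)) := by
    unfold dt; ring
  rw [e]
  exact dvd_sub (dvd_add (h1.mul_right _) (h4.mul_left _)) (dvd_add (h2.mul_right _) (h3.mul_left _))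

lemma dvd_dt_congr {m : ℤ} {z z' w w' : Gi} (h1 : m ∣ z.re - z'.re) (h2 : m ∣ z.im - z'.im)
    (h3 : m ∣ w.re - w'.re) (h4 : m ∣ w.im - w'.im) : m ∣ dt z w ↔ m ∣ dt z' w' := by
  have h := dt_congr h1 h2 h3 h4
  constructor
  · intro k
    have := dvd_sub k h
    simpa using this
  · intro k
    have := dvd_add k h
    simpa using this

lemma dvd_sub_congr {m x x' y y' : ℤ} (h1 : m ∣ x - x') (h2 : m ∣ y - y') :
    m ∣ x - y ↔ m ∣ x' - y' := by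
  have h : m ∣ (x - y) - (x' - y') := by
    have : (x - y) - (x' - y') = (x - x') - (y - y') := by ring
    rw [this]; exact dvd_sub h1 h2
  constructor
  · intro k
    have := dvd_sub k h
    simpa using this
  · intro k
    have := dvd_add k h
    simpa using this

lemma xi_congr {z z' w w' : Gi} (h1 : (4 : ℤ) ∣ z.re - z'.re) (h2 : (4 : ℤ) ∣ z.im - z'.im)
    (h3 : (4 : ℤ) ∣ w.re - w'.re) (h4 : (4 : ℤ) ∣ w.im - w'.im) : xi z w = xi z' w' := by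
  unfold xi
  simp only [dvd_dt_congr h1 h2 h3 h4, dvd_sub_congr h3 h1, dvd_sub_congr h4 h2]

lemma fam (h : ℕ) (hh : 1 ≤ h) (v : ℤ) (hv : 0 ≤ v) : Fam (4 * h) (SS h v) := by
  have d4 : (4 : ℤ) ∣ ((4 * h : ℕ) : ℤ) := by push_cast; exact dvd_mul_right _ _
  have dh : (h : ℤ) ∣ ((4 * h : ℕ) : ℤ) := by push_cast; exact dvd_mul_left _ _
  refine ⟨by omega, dvd_mul_right _ _, fun w => ⟨?_, ?_⟩, ?_, ?_⟩
  · intro z z' h1 h2
    unfold SS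
    rw [dvd_dt_congr (w := w) (w' := w) (dh.trans h1) (dh.trans h2) (by simp) (by simp),
      xi_congr (w := w) (w' := w) (d4.trans h1) (d4.trans h2) (by simp) (by simp)]
  · intro x z hx hx4
    unfold SS
    have e1 : ((x : Gi) * z).re = x * z.re := by simp
    have e2 : ((x : Gi) * z).im = x * z.im := by simp
    have e3 : dt ((x : Gi) * z) w = x * dt z w := by
      unfold dt
      rw [e1, e2]; ring
    have hc : IsCoprime (h : ℤ) x := (hx.of_isCoprime_of_dvd_right dh).symm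
    have e4 : (h : ℤ) ∣ dt ((x : Gi) * z) w ↔ (h : ℤ) ∣ dt z w := by
      rw [e3]
      exact ⟨fun k => hc.dvd_of_dvd_mul_left k, fun k => k.mul_left _⟩
    have e5 : xi ((x : Gi) * z) w = xi z w := by
      apply xi_congr
      · rw [e1, show x * z.re - z.re = (x - 1) * z.re by ring]
        exact hx4.mul_right _
      · rw [e2, show x * z.im - z.im = (x - 1) * z.im by ring]
        exact hx4.mul_right _
      · simp
      · simp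
    rw [e4, e5]
  · intro z w w' h1 h2
    unfold SS
    rw [dvd_dt_congr (z := z) (z' := z) (by simp) (by simp) (dh.trans h1) (dh.trans h2),
      xi_congr (z := z) (z' := z) (by simp) (by simp) (d4.trans h1) (d4.trans h2)]
  · intro z w hS
    rw [hS.2]; exact hv

/-! ### The trivial bounds -/

lemma line_r {K : ℕ} {κ s₁ s₂ C : ℝ} (hC : Cst K κ s₁ s₂ C) {Q : ℕ} {X : ℝ} (hQ : 1 ≤ Q)
    (hX : 2 * (K * Q : ℝ) ≤ X) {e : Gi × Gi} (he : e ∈ good K κ Q X) {w : Gi}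
    (hw : w ∈ cw X s₁ s₂ e.1 e.2) (m : ℤ) :
    (((cw X s₁ s₂ e.1 e.2).filter (fun z => dt z w = m)).card : ℝ) ≤ C := by
  have := hC.line Q X hQ hX e he w hw (-m)
  refine le_trans (le_of_eq ?_) this
  congr 2
  apply filter_congr
  intro z _
  rw [dt_anti z w]
  constructor
  · intro h; omega
  · intro h; omega

open scoped Classical in
/-- sums with a weight depending on the determinant -/
lemma weight_sum {K : ℕ} {κ s₁ s₂ C : ℝ} (hC : Cst K κ s₁ s₂ C) {Q : ℕ} {X : ℝ} (hQ : 1 ≤ Q)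
    (hX : 2 * (K * Q : ℝ) ≤ X) (hX1 : 1 ≤ X) (u : ℕ → ℝ) (hu : ∀ m, 0 ≤ u m) (N : ℕ)
    (F : Gi → Gi → ℝ)
    (hF : ∀ e ∈ good K κ Q X, ∀ w ∈ cw X s₁ s₂ e.1 e.2, ∀ z ∈ cw X s₁ s₂ e.1 e.2,
      F z w ≤ if 0 < dt z w ∧ dt z w ≤ N then u (dt z w).toNat else 0) :
    ∑ e ∈ good K κ Q X, ∑ w ∈ cw X s₁ s₂ e.1 e.2, ∑ z ∈ cw X s₁ s₂ e.1 e.2, F z w ≤
      C ^ 3 * X * ∑ m ∈ Icc 1 N, u m := by
  have hC1 := hC.one
  have hQ' : (1 : ℝ) ≤ Q := by exact_mod_cast hQ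
  have hU : 0 ≤ ∑ m ∈ Icc 1 N, u m := sum_nonneg fun m _ => hu m
  have h1 : ∀ e ∈ good K κ Q X, ∑ w ∈ cw X s₁ s₂ e.1 e.2, ∑ z ∈ cw X s₁ s₂ e.1 e.2, F z w ≤
      (C * Q) * (C * ∑ m ∈ Icc 1 N, u m) := by
    intro e he
    calc ∑ w ∈ cw X s₁ s₂ e.1 e.2, ∑ z ∈ cw X s₁ s₂ e.1 e.2, F z w ≤
        ∑ _w ∈ cw X s₁ s₂ e.1 e.2, C * ∑ m ∈ Icc 1 N, u m := by
          refine sum_le_sum fun w hw => ?_
          refine (sum_le_sum fun z hz => hF e he w hw z hz).trans ?_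
          exact lineSum (cw X s₁ s₂ e.1 e.2) (fun z => dt z w) (line_r hC hQ hX he hw) u hu N
      _ = ((cw X s₁ s₂ e.1 e.2).card : ℝ) * (C * ∑ m ∈ Icc 1 N, u m) := by
          rw [sum_const, nsmul_eq_mul]
      _ ≤ _ := mul_le_mul_of_nonneg_right (hC.vcard Q X hQ hX e he) (by positivity)
  calc _ ≤ ∑ _e ∈ good K κ Q X, (C * Q) * (C * ∑ m ∈ Icc 1 N, u m) := sum_le_sum h1
    _ = ((good K κ Q X).card : ℝ) * ((C * Q) * (C * ∑ m ∈ Icc 1 N, u m)) := by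
        rw [sum_const, nsmul_eq_mul]
    _ ≤ (C * (X / Q)) * ((C * Q) * (C * ∑ m ∈ Icc 1 N, u m)) :=
        mul_le_mul_of_nonneg_right (hC.gcard Q X hQ hX) (by positivity)
    _ = _ := by
        field_simp

lemma toNat_cast {D : ℤ} (h : 0 < D) : ((D.toNat : ℕ) : ℝ) = (D : ℝ) := by
  have h1 : ((D.toNat : ℕ) : ℤ) = D := Int.toNat_of_nonneg h.le
  exact_mod_cast h1

/-- combination of finitely many estimates -/
lemma fin_comb2 {τ : Type} (T : Finset τ) (P : τ → ℕ → ℝ → Prop)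
    (h : ∀ k ∈ T, ∃ Q₀ : ℕ, ∀ Q : ℕ, Q₀ ≤ Q → ∃ X₀ : ℝ, ∀ X : ℝ, X₀ ≤ X → P k Q X) :
    ∃ Q₀ : ℕ, ∀ Q : ℕ, Q₀ ≤ Q → ∃ X₀ : ℝ, ∀ X : ℝ, X₀ ≤ X → ∀ k ∈ T, P k Q X := by
  classical
  induction T using Finset.induction_on with
  | empty => exact ⟨0, fun Q _ => ⟨0, fun X _ k hk => absurd hk (notMem_empty k)⟩⟩
  | insert a T ha ih =>
    obtain ⟨Q₁, h₁⟩ := ih (fun k hk => h k (mem_insert_of_mem hk))
    obtain ⟨Q₂, h₂⟩ := h a (mem_insert_self _ _)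
    refine ⟨max Q₁ Q₂, fun Q hQ => ?_⟩
    obtain ⟨X₁, g₁⟩ := h₁ Q ((le_max_left _ _).trans hQ)
    obtain ⟨X₂, g₂⟩ := h₂ Q ((le_max_right _ _).trans hQ)
    refine ⟨max X₁ X₂, fun X hX k hk => ?_⟩
    rcases mem_insert.1 hk with rfl | hk
    · exact g₂ X ((le_max_right _ _).trans hX)
    · exact g₁ X ((le_max_left _ _).trans hX) k hk

open scoped Classical in
/-- the expansion of the main term -/
lemma G0_split (Q : ℕ) (X : ℝ) {z w : Gi} (hd : 0 < dt z w) (h₀ : ℕ) : G0 Q X z w =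
    ∑ k ∈ ((Icc 1 h₀).filter Squarefree) ×ˢ range 2, (1 + (k.2 : ℝ)) / Nat.totient k.1 *
      (if SS k.1 (k.2 : ℤ) z w then kk Q X z w else 0) +
    (1 + (xi z w : ℝ)) * tl h₀ (dt z w).toNat * kk Q X z w := by
  have h1 : 1 ≤ (dt z w).toNat := by omega
  rw [G0_eq Q X hd, ← toNat_cast hd, split h₀ _ h1, mul_add, add_mul]
  congr 1
  rw [sum_product, mul_sum, sum_mul]
  refine sum_congr rfl fun h _ => ?_
  have e1 : h ∣ (dt z w).toNat ↔ (h : ℤ) ∣ dt z w := by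
    rw [← Int.natCast_dvd_natCast, Int.toNat_of_nonneg hd.le]
  have e2 : xi z w = -1 ∨ xi z w = 0 ∨ xi z w = 1 := by
    unfold xi
    split_ifs <;> simp
  rw [sum_range_succ, sum_range_one]
  unfold SS
  by_cases h2 : (h : ℤ) ∣ dt z w
  · rw [if_pos (e1.2 h2)]
    rcases e2 with h3 | h3 | h3
    · rw [h3, if_neg (fun k => by have := k.2; omega), if_neg (fun k => by have := k.2; omega)]
      push_cast; ring
    · rw [h3, if_pos ⟨h2, by norm_num⟩, if_neg (fun k => by have := k.2; omega)]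
      push_cast; ring
    · rw [h3, if_neg (fun k => by have := k.2; omega), if_pos ⟨h2, by norm_num⟩]
      push_cast; ring
  · rw [if_neg (fun h => h2 (e1.1 h))]
    simp [h2]

lemma gl_gl (z w : Gi) (x : ℝ) : |(gl z : ℝ) * gl w * x| = |x| := by
  rw [abs_mul, abs_mul, gl_abs, gl_abs, one_mul, one_mul]

lemma floor_mem {D : ℤ} {x : ℝ} (h : 0 < D) (hx : (D : ℝ) ≤ x) : D ≤ (⌊x⌋₊ : ℤ) := by
  have h2 : ((D.toNat : ℕ) : ℝ) ≤ x := by rw [toNat_cast h]; exact hx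
  have h3 := Nat.le_floor h2
  omega

/-- the constants and the level -/
structure Lev2 (K : ℕ) (κ s₁ s₂ C Cφ δ η : ℝ) (h₀ Q : ℕ) (X thr : ℝ) : Prop where
  hC : Cst K κ s₁ s₂ C
  hφ : ∀ N : ℕ, ∑ D ∈ Icc 1 N, (D : ℝ) / Nat.totient D ≤ Cφ * N
  hφ1 : 1 ≤ Cφ
  hη : 0 < η
  hδ : 0 < δ
  htl : ∀ N : ℕ, ∑ D ∈ Icc 1 N, tl h₀ D ≤ η * N
  hQ : 1 ≤ Q
  hX : 2 * (K * Q : ℝ) ≤ X
  hX1 : 1 ≤ X
  thr0 : 0 < thr
  thr1 : thr ≤ δ * Q

open scoped Classical in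
lemma bound_a1 {K : ℕ} {κ s₁ s₂ C Cφ δ η : ℝ} {h₀ Q : ℕ} {X thr : ℝ}
    (L : Lev2 K κ s₁ s₂ C Cφ δ η h₀ Q X thr) :
    ∑ e ∈ good K κ Q X, ∑ w ∈ cw X s₁ s₂ e.1 e.2, ∑ z ∈ cw X s₁ s₂ e.1 e.2,
      |if thr ≤ (dt z w : ℝ) ∧ ¬ δ * Q ≤ (dt z w : ℝ) then (gl z : ℝ) * gl w * G0 Q X z w else 0| ≤
      (C ^ 4 * Cφ * δ) * (X * (Q : ℝ) ^ 2) := by
  have hC1 := L.hC.one
  have hQ' : (1 : ℝ) ≤ Q := by exact_mod_cast L.hQ
  have hX1 := L.hX1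
  have hδ := L.hδ
  have hφ1 := L.hφ1
  refine (weight_sum L.hC L.hQ L.hX L.hX1 (fun m => (C * Q) * ((m : ℝ) / Nat.totient m))
    (fun m => by positivity) ⌊δ * Q⌋₊ _ ?_).trans ?_
  · intro e he w hw z hz
    by_cases h : thr ≤ (dt z w : ℝ) ∧ ¬ δ * Q ≤ (dt z w : ℝ)
    · rw [if_pos h, gl_gl]
      have h0 : (0 : ℝ) < (dt z w : ℝ) := L.thr0.trans_le h.1
      have h0' : 0 < dt z w := by exact_mod_cast h0
      rw [if_pos ⟨h0', floor_mem h0' (not_le.1 h.2).le⟩, toNat_cast h0', G0_eq Q X h0', abs_mul,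
        abs_mul, abs_of_nonneg (le_xi z w), abs_of_nonneg (by positivity :
          0 ≤ (dt z w : ℝ) / (Nat.totient (dt z w).toNat : ℝ))]
      have h1 := L.hC.jb Q X L.hQ L.hX e he z hz w hw h0'
      have h2 : 0 ≤ (dt z w : ℝ) / (Nat.totient (dt z w).toNat : ℝ) := by positivity
      calc (1 + (xi z w : ℝ)) * ((dt z w : ℝ) / (Nat.totient (dt z w).toNat : ℝ)) *
            |kk Q X z w| = (1 + (xi z w : ℝ)) * |kk Q X z w| *
            ((dt z w : ℝ) / (Nat.totient (dt z w).toNat : ℝ)) := by ring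
        _ ≤ _ := mul_le_mul_of_nonneg_right h1 h2
    · rw [if_neg h, abs_zero]
      split_ifs
      · positivity
      · exact le_rfl
  · rw [← mul_sum]
    have h1 := L.hφ ⌊δ * Q⌋₊
    have h2 : ((⌊δ * Q⌋₊ : ℕ) : ℝ) ≤ δ * Q := Nat.floor_le (by positivity)
    have h3 : ∑ D ∈ Icc 1 ⌊δ * Q⌋₊, (D : ℝ) / Nat.totient D ≤ Cφ * (δ * Q) :=
      h1.trans (mul_le_mul_of_nonneg_left h2 (by linarith))
    calc C ^ 3 * X * (C * Q * ∑ D ∈ Icc 1 ⌊δ * Q⌋₊, (D : ℝ) / Nat.totient D) ≤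
        C ^ 3 * X * (C * Q * (Cφ * (δ * Q))) := by gcongr
      _ = _ := by ring

open scoped Classical in
lemma bound_a2 {K : ℕ} {κ s₁ s₂ C Cφ δ η : ℝ} {h₀ Q : ℕ} {X thr : ℝ}
    (L : Lev2 K κ s₁ s₂ C Cφ δ η h₀ Q X thr) :
    ∑ e ∈ good K κ Q X, ∑ w ∈ cw X s₁ s₂ e.1 e.2, ∑ z ∈ cw X s₁ s₂ e.1 e.2,
      |if δ * Q ≤ (dt z w : ℝ) then (gl z : ℝ) * gl w *
        ((1 + (xi z w : ℝ)) * tl h₀ (dt z w).toNat * kk Q X z w) else 0| ≤
      (C ^ 5 * η) * (X * (Q : ℝ) ^ 2) := by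
  have hC1 := L.hC.one
  have hQ' : (1 : ℝ) ≤ Q := by exact_mod_cast L.hQ
  have hX1 := L.hX1
  have hδ := L.hδ
  have hη := L.hη
  refine (weight_sum L.hC L.hQ L.hX L.hX1 (fun m => (C * Q) * tl h₀ m)
    (fun m => mul_nonneg (by positivity) (tl_nonneg _ _)) ⌊C * Q⌋₊ _ ?_).trans ?_
  · intro e he w hw z hz
    by_cases h : δ * Q ≤ (dt z w : ℝ)
    · rw [if_pos h, gl_gl]
      have h0 : (0 : ℝ) < (dt z w : ℝ) := (by positivity : 0 < δ * Q).trans_le h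
      have h0' : 0 < dt z w := by exact_mod_cast h0
      have h3 := L.hC.dtle Q X L.hQ L.hX e he z hz w hw
      rw [if_pos ⟨h0', floor_mem h0' h3⟩, abs_mul, abs_mul, abs_of_nonneg (le_xi z w),
        abs_of_nonneg (tl_nonneg _ _)]
      have h1 := L.hC.jb Q X L.hQ L.hX e he z hz w hw h0'
      calc (1 + (xi z w : ℝ)) * tl h₀ (dt z w).toNat * |kk Q X z w| =
            (1 + (xi z w : ℝ)) * |kk Q X z w| * tl h₀ (dt z w).toNat := by ring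
        _ ≤ _ := mul_le_mul_of_nonneg_right h1 (tl_nonneg _ _)
    · rw [if_neg h, abs_zero]
      split_ifs
      · exact mul_nonneg (by positivity) (tl_nonneg _ _)
      · exact le_rfl
  · rw [← mul_sum]
    have h1 := L.htl ⌊C * Q⌋₊
    have h2 : ((⌊C * Q⌋₊ : ℕ) : ℝ) ≤ C * Q := Nat.floor_le (by positivity)
    have h3 : ∑ D ∈ Icc 1 ⌊C * Q⌋₊, tl h₀ D ≤ η * (C * Q) :=
      h1.trans (mul_le_mul_of_nonneg_left h2 (by linarith))
    calc C ^ 3 * X * (C * Q * ∑ D ∈ Icc 1 ⌊C * Q⌋₊, tl h₀ D) ≤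
        C ^ 3 * X * (C * Q * (η * (C * Q))) := by gcongr
      _ = _ := by ring

open scoped Classical in
/-- the three parts of one term -/
lemma term_split {δ thr X : ℝ} {h₀ Q : ℕ} (hδ : 0 < δ * Q) (h1 : thr ≤ δ * Q) (z w : Gi) :
    (if thr ≤ (dt z w : ℝ) then (gl z : ℝ) * gl w * G0 Q X z w else 0) =
    (if thr ≤ (dt z w : ℝ) ∧ ¬ δ * Q ≤ (dt z w : ℝ) then (gl z : ℝ) * gl w * G0 Q X z w else 0) +
    ∑ k ∈ ((Icc 1 h₀).filter Squarefree) ×ˢ range 2, (1 + (k.2 : ℝ)) / Nat.totient k.1 *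
      (if δ * Q ≤ (dt z w : ℝ) ∧ SS k.1 (k.2 : ℤ) z w then
        (gl z : ℝ) * gl w * kk Q X z w else 0) +
    (if δ * Q ≤ (dt z w : ℝ) then (gl z : ℝ) * gl w *
        ((1 + (xi z w : ℝ)) * tl h₀ (dt z w).toNat * kk Q X z w) else 0) := by
  by_cases h : δ * Q ≤ (dt z w : ℝ)
  · have h0 : (0 : ℝ) < (dt z w : ℝ) := hδ.trans_le h
    have h0' : 0 < dt z w := by exact_mod_cast h0
    rw [if_pos (h1.trans h), if_neg (fun k => k.2 h), if_pos h, zero_add, G0_split Q X h0' h₀,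
      mul_add, mul_sum]
    congr 1
    refine sum_congr rfl fun k _ => ?_
    by_cases hS : SS k.1 (k.2 : ℤ) z w
    · rw [if_pos hS, if_pos ⟨h, hS⟩]; ring
    · rw [if_neg hS, if_neg (fun k => hS k.2)]; ring
  · have e1 : ∑ k ∈ ((Icc 1 h₀).filter Squarefree) ×ˢ range 2,
        (1 + (k.2 : ℝ)) / Nat.totient k.1 *
      (if δ * Q ≤ (dt z w : ℝ) ∧ SS k.1 (k.2 : ℤ) z w then
        (gl z : ℝ) * gl w * kk Q X z w else 0) = 0 := by
      apply sum_eq_zero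
      intro k _
      rw [if_neg (fun k => h k.1), mul_zero]
    rw [e1, if_neg h, add_zero, add_zero]
    by_cases h2 : thr ≤ (dt z w : ℝ)
    · rw [if_pos h2, if_pos ⟨h2, h⟩]
    · rw [if_neg h2, if_neg (fun k => h2 k.1)]

theorem btm (h1 : S_MRS) (h2 : S_JB) (h3 : S_JV) (h4 : S_LN) (h5 : S_DTB) : S_BTM := by
  classical
  intro K κ s₁ s₂ ε hK hκ hs₁ h12 hs₂ hε
  obtain ⟨C, hC⟩ := exists_cst (s₂ := s₂) h2 h4 h5 hK hκ hs₁ hs₂
  have hC1 := hC.one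
  have hK' : (1 : ℝ) ≤ K := by exact_mod_cast hK
  obtain ⟨Cφ, hCφ, havg⟩ := avg_le
  obtain ⟨η, hη, hη'⟩ : ∃ η : ℝ, 0 < η ∧ C ^ 5 * η ≤ ε / 4 := by
    refine ⟨ε / (4 * C ^ 5), by positivity, le_of_eq ?_⟩
    field_simp
  obtain ⟨h₀, htail⟩ := tail_small hη
  obtain ⟨N, hN⟩ : ∃ N : ℝ, N = ((((Icc 1 h₀).filter Squarefree) ×ˢ range 2).card : ℝ) := ⟨_, rfl⟩
  have hN0 : 0 ≤ N := by rw [hN]; positivity
  obtain ⟨δ, hδ, hδ'⟩ : ∃ δ : ℝ, 0 < δ ∧ (2 * N * C ^ 4 + C ^ 4 * Cφ) * δ ≤ ε / 4 := by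
    have : 0 < 2 * N * C ^ 4 + C ^ 4 * Cφ := by positivity
    refine ⟨ε / (4 * (2 * N * C ^ 4 + C ^ 4 * Cφ)), by positivity, le_of_eq ?_⟩
    field_simp
  obtain ⟨ε', hε', hε''⟩ : ∃ ε' : ℝ, 0 < ε' ∧ 2 * N * ε' ≤ ε / 4 := by
    refine ⟨ε / (8 * (N + 1)), by positivity, ?_⟩
    rw [mul_div_assoc', div_le_div_iff₀ (by positivity) (by norm_num)]
    nlinarith
  obtain ⟨Q₁, hQ₁⟩ := fin_comb2 (((Icc 1 h₀).filter Squarefree) ×ˢ range 2)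
    (fun k Q X => |∑ e ∈ good K κ Q X, ∑ w ∈ cw X s₁ s₂ e.1 e.2, ∑ z ∈ cw X s₁ s₂ e.1 e.2,
        (if δ * Q ≤ (dt z w : ℝ) ∧ SS k.1 (k.2 : ℤ) z w then
          (gl z : ℝ) * gl w * kk Q X z w else 0)| ≤ (C ^ 4 * δ + ε') * X * (Q : ℝ) ^ 2)
    (by
      rintro ⟨h, v⟩ hk
      rw [mem_product, mem_filter, mem_Icc] at hk
      exact core h1 h3 hK hs₁ h12 hs₂ hC (fam h hk.1.1.1 (v : ℤ) (by positivity)) hδ hε')
  refine ⟨max Q₁ (⌈Real.exp (1 + 1 / δ)⌉₊), fun Q hQ => ?_⟩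
  have hQa : Q₁ ≤ Q := (le_max_left _ _).trans hQ
  have hQb : Real.exp (1 + 1 / δ) ≤ Q :=
    (Nat.le_ceil _).trans (by exact_mod_cast (le_max_right _ _).trans hQ)
  have hQpos : (0 : ℝ) < Q := (Real.exp_pos _).trans_le hQb
  have hQ1 : 1 ≤ Q := by exact_mod_cast hQpos
  have hlog : 1 + 1 / δ ≤ Real.log Q := (Real.le_log_iff_exp_le hQpos).2 hQb
  have hδi : 0 < 1 / δ := by positivity
  have hthr : (Q : ℝ) / Real.log Q ^ 3 ≤ δ * Q := by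
    have g1 : 1 ≤ Real.log Q := by linarith
    have g2 : 1 / δ ≤ Real.log Q ^ 3 := by
      calc 1 / δ ≤ Real.log Q := by linarith
        _ = Real.log Q ^ 1 := (pow_one _).symm
        _ ≤ Real.log Q ^ 3 := pow_le_pow_right₀ g1 (by norm_num)
    rw [div_le_iff₀ (by positivity)]
    rw [div_le_iff₀ hδ] at g2
    nlinarith [mul_le_mul_of_nonneg_right g2 hQpos.le]
  have hthr0 : 0 < (Q : ℝ) / Real.log Q ^ 3 := by
    have : 0 < Real.log Q := by linarith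
    positivity
  obtain ⟨X₁, hX₁⟩ := hQ₁ Q hQa
  refine ⟨max X₁ (2 * (K * Q : ℝ)), fun X hX => ?_⟩
  have hXa : X₁ ≤ X := (le_max_left _ _).trans hX
  have hXb : 2 * (K * Q : ℝ) ≤ X := (le_max_right _ _).trans hX
  have hQ1' : (1 : ℝ) ≤ Q := by exact_mod_cast hQ1
  have hX1 : 1 ≤ X := by nlinarith
  have hcore := hX₁ X hXa
  have L : Lev2 K κ s₁ s₂ C Cφ δ η h₀ Q X ((Q : ℝ) / Real.log Q ^ 3) :=
    ⟨hC, havg, hCφ, hη, hδ, htail, hQ1, hXb, hX1, hthr0, hthr⟩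
  have b1 := bound_a1 L
  have b2 := bound_a2 L
  have hδQ : 0 < δ * Q := by positivity
  have e1 : (∑ e ∈ good K κ Q X, ∑ w₁ ∈ cw X s₁ s₂ e.1 e.2, ∑ w₂ ∈ cw X s₁ s₂ e.1 e.2,
      if (Q : ℝ) / Real.log Q ^ 3 ≤ (dt w₁ w₂ : ℝ) then
        (gl w₁ : ℝ) * gl w₂ * G0 Q X w₁ w₂ else 0) =
      (∑ e ∈ good K κ Q X, ∑ w ∈ cw X s₁ s₂ e.1 e.2, ∑ z ∈ cw X s₁ s₂ e.1 e.2,
        (if (Q : ℝ) / Real.log Q ^ 3 ≤ (dt z w : ℝ) ∧ ¬ δ * Q ≤ (dt z w : ℝ) then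
          (gl z : ℝ) * gl w * G0 Q X z w else 0)) +
      (∑ k ∈ ((Icc 1 h₀).filter Squarefree) ×ˢ range 2, (1 + (k.2 : ℝ)) / Nat.totient k.1 *
        ∑ e ∈ good K κ Q X, ∑ w ∈ cw X s₁ s₂ e.1 e.2, ∑ z ∈ cw X s₁ s₂ e.1 e.2,
      (if δ * Q ≤ (dt z w : ℝ) ∧ SS k.1 (k.2 : ℤ) z w then
        (gl z : ℝ) * gl w * kk Q X z w else 0)) +
      (∑ e ∈ good K κ Q X, ∑ w ∈ cw X s₁ s₂ e.1 e.2, ∑ z ∈ cw X s₁ s₂ e.1 e.2,
        (if δ * Q ≤ (dt z w : ℝ) then (gl z : ℝ) * gl w *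
        ((1 + (xi z w : ℝ)) * tl h₀ (dt z w).toNat * kk Q X z w) else 0)) := by
    simp only [mul_sum]
    rw [sum_comm (s := ((Icc 1 h₀).filter Squarefree) ×ˢ range 2), ← sum_add_distrib,
      ← sum_add_distrib]
    refine sum_congr rfl fun e _ => ?_
    rw [sum_comm (s := ((Icc 1 h₀).filter Squarefree) ×ˢ range 2), ← sum_add_distrib,
      ← sum_add_distrib, sum_comm]
    refine sum_congr rfl fun w _ => ?_
    rw [sum_comm (s := ((Icc 1 h₀).filter Squarefree) ×ˢ range 2), ← sum_add_distrib,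
      ← sum_add_distrib]
    refine sum_congr rfl fun z _ => ?_
    exact term_split hδQ hthr z w
  rw [e1]
  have k1 : |∑ e ∈ good K κ Q X, ∑ w ∈ cw X s₁ s₂ e.1 e.2, ∑ z ∈ cw X s₁ s₂ e.1 e.2,
        (if (Q : ℝ) / Real.log Q ^ 3 ≤ (dt z w : ℝ) ∧ ¬ δ * Q ≤ (dt z w : ℝ) then
          (gl z : ℝ) * gl w * G0 Q X z w else 0)| ≤ (C ^ 4 * Cφ * δ) * (X * (Q : ℝ) ^ 2) := by
    refine le_trans ?_ b1
    refine (abs_sum_le_sum_abs _ _).trans (sum_le_sum fun e _ => ?_)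
    refine (abs_sum_le_sum_abs _ _).trans (sum_le_sum fun w _ => ?_)
    exact abs_sum_le_sum_abs _ _
  have k2 : |∑ e ∈ good K κ Q X, ∑ w ∈ cw X s₁ s₂ e.1 e.2, ∑ z ∈ cw X s₁ s₂ e.1 e.2,
        (if δ * Q ≤ (dt z w : ℝ) then (gl z : ℝ) * gl w *
        ((1 + (xi z w : ℝ)) * tl h₀ (dt z w).toNat * kk Q X z w) else 0)| ≤
      (C ^ 5 * η) * (X * (Q : ℝ) ^ 2) := by
    refine le_trans ?_ b2
    refine (abs_sum_le_sum_abs _ _).trans (sum_le_sum fun e _ => ?_)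
    refine (abs_sum_le_sum_abs _ _).trans (sum_le_sum fun w _ => ?_)
    exact abs_sum_le_sum_abs _ _
  have k3 : |∑ k ∈ ((Icc 1 h₀).filter Squarefree) ×ˢ range 2,
        (1 + (k.2 : ℝ)) / Nat.totient k.1 *
        ∑ e ∈ good K κ Q X, ∑ w ∈ cw X s₁ s₂ e.1 e.2, ∑ z ∈ cw X s₁ s₂ e.1 e.2,
      (if δ * Q ≤ (dt z w : ℝ) ∧ SS k.1 (k.2 : ℤ) z w then
        (gl z : ℝ) * gl w * kk Q X z w else 0)| ≤
      N * (2 * ((C ^ 4 * δ + ε') * X * (Q : ℝ) ^ 2)) := by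
    refine (abs_sum_le_sum_abs _ _).trans ?_
    rw [hN, ← nsmul_eq_mul]
    refine sum_le_card_nsmul _ _ _ fun k hk => ?_
    have h6 := hcore k hk
    rw [mem_product, mem_filter, mem_Icc, mem_range] at hk
    rw [abs_mul]
    have h7 : (0 : ℝ) ≤ (1 + (k.2 : ℝ)) / Nat.totient k.1 := by positivity
    have h8 : (1 + (k.2 : ℝ)) / Nat.totient k.1 ≤ 2 := by
      have h9 : (1 : ℝ) ≤ Nat.totient k.1 := by
        have : 0 < Nat.totient k.1 := Nat.totient_pos.2 hk.1.1.1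
        exact_mod_cast this
      have h10 : (k.2 : ℝ) ≤ 1 := by
        have : k.2 ≤ 1 := by omega
        exact_mod_cast this
      rw [div_le_iff₀ (by linarith)]
      linarith
    rw [abs_of_nonneg h7]
    exact mul_le_mul h8 h6 (abs_nonneg _) (by norm_num)
  have t6 : 0 ≤ X * (Q : ℝ) ^ 2 := by positivity
  have m1 := mul_le_mul_of_nonneg_right hη' t6
  have m2 := mul_le_mul_of_nonneg_right hδ' t6
  have m3 := mul_le_mul_of_nonneg_right hε'' t6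
  have m4 : 0 ≤ ε * (X * (Q : ℝ) ^ 2) := by positivity
  refine (abs_add_le _ _).trans ?_
  refine (add_le_add_left (abs_add_le _ _) _).trans ?_
  calc _ ≤ ((C ^ 4 * Cφ * δ) * (X * (Q : ℝ) ^ 2) + N * (2 * ((C ^ 4 * δ + ε') * X * (Q : ℝ) ^ 2))) +
        (C ^ 5 * η) * (X * (Q : ℝ) ^ 2) := add_le_add (add_le_add k1 k3) k2
    _ = (2 * N * C ^ 4 + C ^ 4 * Cφ) * δ * (X * (Q : ℝ) ^ 2) + 2 * N * ε' * (X * (Q : ℝ) ^ 2) +
        C ^ 5 * η * (X * (Q : ℝ) ^ 2) := by ring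
    _ ≤ ε * (X * (Q : ℝ) ^ 2) := by linarith
    _ = _ := by ring

end Pool.Agent.W125.EC
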