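import Pool.Agent.W78.EC.Defs2
import Pool.Agent.W714.EC.Bij

/-!
Project EC (helper78), task B9: geometry of the cones.
-/

set_option autoImplicit false

namespace Pool.Agent.W125.EC

open Finset Filter
open Pool.Agent.H376R2.MR
open Pool.Agent.W78.GA
open Pool.Agent.W78.EC
open Pool.Agent.W714.EC (hD01 nmZ decomp mem_cone mem_edge edge_unique)

/-- the determinant in terms of the angles -/
lemma dt_sin {v u : Gi} (hv : v ≠ 0) (hu : u ≠ 0) :
    (dt v u : ℝ) = Real.sqrt (nm v) * Real.sqrt (nm u) * Real.sin (ang u - ang v) := by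
  have h2 : Real.sqrt (4 * ((1 : ℤ) : ℝ) - ((0 : ℤ) : ℝ) ^ 2) = 2 := by
    rw [show (4 * ((1 : ℤ) : ℝ) - ((0 : ℤ) : ℝ) ^ 2) = 2 ^ 2 by norm_num]
    exact Real.sqrt_sq (by norm_num)
  have hre : ∀ z : Gi, (tc z).re = z.re := by
    intro z
    rw [tc_re]; push_cast; ring
  have him : ∀ z : Gi, (tc z).im = z.im := by
    intro z
    rw [tc_im, h2]; ring
  have key : ∀ z : Gi, z ≠ 0 → (z.re : ℝ) = Real.sqrt (nm z) * Real.cos (ang z) ∧
      (z.im : ℝ) = Real.sqrt (nm z) * Real.sin (ang z) := by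
    intro z hz
    have h0 : tc z ≠ 0 := tc_ne_zero hD01 hz
    rw [← norm_tc hD01]
    unfold ang
    rw [Complex.norm_mul_cos_arg, Complex.norm_mul_sin_arg, hre, him]
    exact ⟨rfl, rfl⟩
  obtain ⟨a1, a2⟩ := key v hv
  obtain ⟨b1, b2⟩ := key u hu
  unfold dt
  push_cast
  rw [a1, a2, b1, b2, Real.sin_sub]
  ring

lemma sin_lip (x y : ℝ) : Real.sin x - Real.sin y ≤ |x - y| := by
  rw [Real.sin_sub_sin]
  have h1 : |Real.sin ((x - y) / 2)| ≤ |(x - y) / 2| := Real.abs_sin_le_abs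
  have h2 := Real.abs_cos_le_one ((x + y) / 2)
  have h3 : |2 * Real.sin ((x - y) / 2) * Real.cos ((x + y) / 2)| ≤ |x - y| := by
    rw [abs_mul, abs_mul, abs_of_pos (by norm_num : (0 : ℝ) < 2)]
    calc 2 * |Real.sin ((x - y) / 2)| * |Real.cos ((x + y) / 2)|
        ≤ 2 * |(x - y) / 2| * 1 := by gcongr
      _ = |x - y| := by
        rw [abs_div, abs_of_pos (by norm_num : (0 : ℝ) < 2)]
        ring
  exact (le_abs_self _).trans h3

lemma aix_close {n : ℕ} (hn : 1 ≤ n) {z z' : Gi} (h : aix n z = aix n z') :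
    |ang z - ang z'| ≤ 2 * Real.pi / n := by
  have hn' : (0 : ℝ) < n := by exact_mod_cast hn
  have hpi := Real.pi_pos
  unfold aix at h
  have h1 := Int.abs_sub_lt_one_of_floor_eq_floor h
  have h2 : (ang z + Real.pi) * n / (2 * Real.pi) - (ang z' + Real.pi) * n / (2 * Real.pi) =
      (ang z - ang z') * (n / (2 * Real.pi)) := by
    field_simp
    ring
  rw [h2, abs_mul, abs_of_pos (by positivity : 0 < (n : ℝ) / (2 * Real.pi))] at h1
  rw [le_div_iff₀ hn']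
  have h3 : |ang z - ang z'| * n < 2 * Real.pi := by
    have := mul_lt_mul_of_pos_right h1 (by positivity : 0 < 2 * Real.pi)
    calc |ang z - ang z'| * n = |ang z - ang z'| * (n / (2 * Real.pi)) * (2 * Real.pi) := by
          field_simp
      _ < 1 * (2 * Real.pi) := this
      _ = _ := one_mul _
  exact h3.le

lemma aix_range {n : ℕ} (z : Gi) : ∃ j ∈ range (n + 1), aix n z = (j : ℤ) := by
  have hpi := Real.pi_pos
  have h1 : -Real.pi < ang z := Complex.neg_pi_lt_arg _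
  have h2 : ang z ≤ Real.pi := Complex.arg_le_pi _
  have h3 : 0 ≤ aix n z := by
    unfold aix
    apply Int.floor_nonneg.2
    have : 0 ≤ ang z + Real.pi := by linarith
    positivity
  have h4 : aix n z ≤ n := by
    unfold aix
    have : (ang z + Real.pi) * n / (2 * Real.pi) ≤ n := by
      rw [div_le_iff₀ (by positivity)]
      have hn' : (0 : ℝ) ≤ n := by positivity
      nlinarith
    have h5 := Int.floor_le_floor this
    rwa [Int.floor_natCast] at h5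
  refine ⟨(aix n z).toNat, ?_, ?_⟩
  · rw [mem_range]; omega
  · rw [Int.toNat_of_nonneg h3]

/-- the inner product of the two vectors of an edge is nonnegative -/
lemma ip_edge {Y : ℝ} {e : Gi × Gi} (he : e ∈ edge 0 1 Y) : 0 ≤ ip e.1 e.2 := by
  rw [mem_edge] at he
  obtain ⟨⟨⟨-, ha⟩, -, hb⟩, hab, hY⟩ := he
  have h1 := ip_dt hD01 e.1 e.2
  have h2 := nm_add hD01 e.1 e.2
  rw [hab] at h1
  have h3 : (nm e.1 : ℝ) < nm (e.1 + e.2) := lt_of_le_of_lt ha hY
  have h4 : (nm e.2 : ℝ) < nm (e.1 + e.2) := lt_of_le_of_lt hb hY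
  have h5 : (nm e.1 : ℤ) < nm (e.1 + e.2) := by exact_mod_cast h3
  have h6 : (nm e.2 : ℤ) < nm (e.1 + e.2) := by exact_mod_cast h4
  by_contra hc
  push Not at hc
  set p := ip e.1 e.2 with hp
  have h7 : -(2 * p) < nm e.2 := by linarith
  have h8 : -(2 * p) < nm e.1 := by linarith
  have h9 : (-(2 * p)) * (-(2 * p)) < nm e.1 * nm e.2 := by
    have h10 : 0 < -(2 * p) := by linarith
    nlinarith
  nlinarith

lemma ip_comb (a b : Gi) (x y x' y' : ℤ) :
    ip ((x : Gi) * a + (y : Gi) * b) ((x' : Gi) * a + (y' : Gi) * b) =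
      x * x' * nm a + (x * y' + y * x') * ip a b + y * y' * nm b := by
  rw [nmZ, nmZ]
  unfold ip
  simp only [QuadraticAlgebra.re_add, QuadraticAlgebra.im_add, QuadraticAlgebra.re_mul,
      QuadraticAlgebra.im_mul, QuadraticAlgebra.re_intCast, QuadraticAlgebra.im_intCast, Int.cast_id]
  ring

/-- vectors of the same cone have positive inner product -/
lemma ip_cone {Y X : ℝ} {e : Gi × Gi} (he : e ∈ edge 0 1 Y) {w₁ w₂ : Gi}
    (h1 : w₁ ∈ cone X e.1 e.2) (h2 : w₂ ∈ cone X e.1 e.2) : 0 < ip w₁ w₂ := by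
  have h3 := ip_edge he
  rw [mem_edge] at he
  obtain ⟨⟨⟨pa, ha⟩, pb, hb⟩, hab, hY⟩ := he
  rw [mem_cone] at h1 h2
  have e1 : w₁ = ((dt w₁ e.2 : ℤ) : Gi) * e.1 + ((dt e.1 w₁ : ℤ) : Gi) * e.2 := by
    obtain ⟨d1, d2⟩ := decomp hab w₁
    apply QuadraticAlgebra.ext
    · simpa using d1
    · simpa using d2
  have e2 : w₂ = ((dt w₂ e.2 : ℤ) : Gi) * e.1 + ((dt e.1 w₂ : ℤ) : Gi) * e.2 := by
    obtain ⟨d1, d2⟩ := decomp hab w₂
    apply QuadraticAlgebra.ext
    · simpa using d1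
    · simpa using d2
  rw [e1, e2, ip_comb]
  have hA : 0 < (nm e.1 : ℤ) := by exact_mod_cast nm_pos hD01 (prim_ne_zero pa)
  obtain ⟨-, x1, y1⟩ := h1
  obtain ⟨-, x2, y2⟩ := h2
  have t1 : 0 < dt w₁ e.2 * dt w₂ e.2 * (nm e.1 : ℤ) := by positivity
  have t2 : 0 ≤ (dt w₁ e.2 * dt e.1 w₂ + dt e.1 w₁ * dt w₂ e.2) * ip e.1 e.2 := by positivity
  have t3 : 0 ≤ dt e.1 w₁ * dt e.1 w₂ * (nm e.2 : ℤ) := by positivity
  linarith

lemma card_ball {Y : ℝ} (hY : 1 ≤ Y) : ((ball 0 1 Y).card : ℝ) ≤ 9 * Y := by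
  classical
  set r : ℕ := ⌊Real.sqrt Y⌋₊ with hr
  have hsub : ball 0 1 Y ⊆ ((Icc (-(r : ℤ)) r ×ˢ Icc (-(r : ℤ)) r).image
      (fun p => (⟨p.1, p.2⟩ : Gi))) := by
    intro z hz
    rw [mem_ball hD01] at hz
    rw [mem_image]
    refine ⟨(z.re, z.im), ?_, rfl⟩
    have h1 : ((z.re : ℝ)) ^ 2 + (z.im : ℝ) ^ 2 ≤ Y := by
      have := nmZ z
      have h2 : (nm z : ℝ) = (z.re : ℝ) ^ 2 + (z.im : ℝ) ^ 2 := by exact_mod_cast this
      rw [← h2]; exact hz.2
    have key : ∀ x : ℤ, (x : ℝ) ^ 2 ≤ Y → -(r : ℤ) ≤ x ∧ x ≤ r := by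
      intro x hx
      have h3 : |(x : ℝ)| ≤ Real.sqrt Y := Real.abs_le_sqrt hx
      have h4 : ((x.natAbs : ℕ) : ℝ) ≤ Real.sqrt Y := by
        rw [Nat.cast_natAbs]
        push_cast
        exact h3
      have h5 : x.natAbs ≤ r := Nat.le_floor h4
      omega
    rw [mem_product, mem_Icc, mem_Icc]
    exact ⟨key _ (by nlinarith [sq_nonneg (z.im : ℝ)]), key _ (by nlinarith [sq_nonneg (z.re : ℝ)])⟩
  have h1 := (card_le_card hsub).trans card_image_le
  rw [card_product, Int.card_Icc] at h1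
  have h2 : ((r : ℤ) + 1 - -(r : ℤ)).toNat = 2 * r + 1 := by omega
  rw [h2] at h1
  have h3 : ((ball 0 1 Y).card : ℝ) ≤ (2 * r + 1) * (2 * r + 1) := by exact_mod_cast h1
  have h4 : (r : ℝ) ≤ Real.sqrt Y := Nat.floor_le (Real.sqrt_nonneg _)
  have h5 : 1 ≤ Real.sqrt Y := by
    rw [show (1 : ℝ) = Real.sqrt 1 by simp]
    exact Real.sqrt_le_sqrt hY
  have h6 := Real.sq_sqrt (by linarith : 0 ≤ Y)
  have h7 : (0 : ℝ) ≤ r := by positivity
  nlinarith

end Pool.Agent.W125.EC
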