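import Mathlib

/-!
Project EC (helper78), task B9: abstract lemmas on finite sums.
-/

set_option autoImplicit false

namespace Pool.Agent.W125.EC

open Finset

variable {α ι E : Type}

open scoped Classical in
/-- the cell with index `p` -/
noncomputable def cel (V : Finset α) (idx : α → ι) (p : ι) : Finset α := V.filter (fun z => idx z = p)

open scoped Classical in
/-- absolute value of the sum over a cell and a class -/
noncomputable def absS (V : Finset α) (idx : α → ι) (p : ι) (S : α → Prop) (g : α → ℝ) : ℝ :=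
  |∑ z ∈ (cel V idx p).filter S, g z|

open scoped Classical in
/-- number of elements -/
noncomputable def nc (V : Finset α) (near : α → Prop) : ℝ := ((V.filter near).card : ℝ)

open scoped Classical in
/-- sum over the full cells -/
noncomputable def FFa (Ann V : Finset α) (idx : α → ι) (P : Finset ι) (S : α → Prop)
    (g : α → ℝ) : ℝ :=
  ∑ p ∈ P, (if cel Ann idx p ⊆ V ∧ (cel Ann idx p).Nonempty then absS Ann idx p S g else 0)

lemma mem_cel {V : Finset α} {idx : α → ι} {p : ι} {z : α} :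
    z ∈ cel V idx p ↔ z ∈ V ∧ idx z = p := by
  classical
  unfold cel
  rw [mem_filter]

lemma absS_nonneg (V : Finset α) (idx : α → ι) (p : ι) (S : α → Prop) (g : α → ℝ) :
    0 ≤ absS V idx p S g := abs_nonneg _

lemma sum_cel {V : Finset α} {idx : α → ι} {P : Finset ι} (h : ∀ z ∈ V, idx z ∈ P) (f : α → ℝ) :
    ∑ p ∈ P, ∑ z ∈ cel V idx p, f z = ∑ z ∈ V, f z := by
  classical
  unfold cel
  convert sum_fiberwise_of_maps_to h f

open scoped Classical in
/-- one cell -/
lemma cellA0 (c : Finset α) (P : α → Prop) (d f g : α → ℝ) {thr B η : ℝ} (hη : 0 ≤ η) (hB : 0 ≤ B)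
    (hg : ∀ z, |g z| ≤ 1) (hthr : 0 < thr)
    (h1 : ∀ z ∈ c, P z → 0 < d z → |f z| ≤ B)
    (h2 : ∀ z ∈ c, ∀ z' ∈ c, P z → P z' → thr ≤ d z → thr ≤ d z' → |f z - f z'| ≤ η)
    (h3 : ∀ z ∈ c, ∀ z' ∈ c, thr ≤ d z → 0 < d z') :
    |∑ z ∈ c, (if thr ≤ d z ∧ P z then g z * f z else 0)| ≤
      B * |∑ z ∈ c.filter P, g z| + ∑ z ∈ c, (η + if 0 < d z ∧ d z < thr then B else 0) := by
  have hpos : 0 ≤ ∑ z ∈ c, (η + if 0 < d z ∧ d z < thr then B else 0) := by
    apply sum_nonneg
    intro z _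
    split_ifs <;> linarith
  by_cases hex : ∃ z₀ ∈ c, P z₀ ∧ thr ≤ d z₀
  · obtain ⟨z₀, hz₀, hP, hd⟩ := hex
    have e1 : ∑ z ∈ c, (if thr ≤ d z ∧ P z then g z * f z else 0) =
        f z₀ * ∑ z ∈ c.filter P, g z +
        ∑ z ∈ c, ((if thr ≤ d z ∧ P z then g z * f z else 0) - if P z then f z₀ * g z else 0) := by
      rw [sum_sub_distrib, mul_sum, sum_filter]
      ring
    rw [e1]
    refine (abs_add_le _ _).trans (add_le_add ?_ ?_)
    · rw [abs_mul]
      exact mul_le_mul_of_nonneg_right (h1 z₀ hz₀ hP (hthr.trans_le hd)) (abs_nonneg _)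
    · refine (abs_sum_le_sum_abs _ _).trans (sum_le_sum fun z hz => ?_)
      by_cases hPz : P z
      · by_cases hdz : thr ≤ d z
        · rw [if_pos ⟨hdz, hPz⟩, if_pos hPz, if_neg (by push Not; intro _; exact hdz), add_zero,
            show g z * f z - f z₀ * g z = g z * (f z - f z₀) by ring, abs_mul]
          calc |g z| * |f z - f z₀| ≤ 1 * η :=
                mul_le_mul (hg z) (h2 z hz z₀ hz₀ hPz hP hdz hd) (abs_nonneg _) (by norm_num)
            _ = η := one_mul _
        · have h0 := h3 z₀ hz₀ z hz hd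
          push Not at hdz
          rw [if_neg (by push Not; intro h; linarith), if_pos hPz, if_pos ⟨h0, hdz⟩, zero_sub,
            abs_neg, abs_mul]
          have := h1 z₀ hz₀ hP (hthr.trans_le hd)
          calc |f z₀| * |g z| ≤ B * 1 := mul_le_mul this (hg z) (abs_nonneg _) hB
            _ ≤ η + B := by linarith
      · rw [if_neg (fun h => hPz h.2), if_neg hPz, sub_zero, abs_zero]
        split_ifs <;> linarith
  · push Not at hex
    have e1 : ∑ z ∈ c, (if thr ≤ d z ∧ P z then g z * f z else 0) = 0 := by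
      apply sum_eq_zero
      intro z hz
      rw [if_neg]
      rintro ⟨k1, k2⟩
      exact absurd k1 (not_le.2 (hex z hz k2))
    rw [e1, abs_zero]
    have : 0 ≤ B * |∑ z ∈ c.filter P, g z| := by positivity
    linarith

open scoped Classical in
/-- sums over lines -/
lemma lineSum (V : Finset α) (D : α → ℤ) {C : ℝ} (hC : ∀ m : ℤ, ((V.filter (fun z => D z = m)).card : ℝ) ≤ C)
    (u : ℕ → ℝ) (hu : ∀ m, 0 ≤ u m) (N : ℕ) :
    ∑ z ∈ V, (if 0 < D z ∧ D z ≤ N then u (D z).toNat else 0) ≤ C * ∑ m ∈ Icc 1 N, u m := by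
  rw [← sum_filter]
  have hmaps : ∀ z ∈ V.filter (fun z => 0 < D z ∧ D z ≤ N), (D z).toNat ∈ Icc 1 N := by
    intro z hz
    rw [mem_filter] at hz
    rw [mem_Icc]
    omega
  rw [← sum_fiberwise_of_maps_to hmaps, mul_sum]
  refine sum_le_sum fun m hm => ?_
  rw [mem_Icc] at hm
  have e1 : ∑ z ∈ (V.filter (fun z => 0 < D z ∧ D z ≤ N)).filter (fun z => (D z).toNat = m),
      u (D z).toNat = (((V.filter (fun z => 0 < D z ∧ D z ≤ N)).filter
        (fun z => (D z).toNat = m)).card : ℝ) * u m := by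
    rw [← nsmul_eq_mul, ← sum_const]
    refine sum_congr rfl fun z hz => ?_
    rw [(mem_filter.1 hz).2]
  rw [e1]
  apply mul_le_mul_of_nonneg_right _ (hu m)
  refine le_trans ?_ (hC m)
  have hsub : (V.filter (fun z => 0 < D z ∧ D z ≤ N)).filter (fun z => (D z).toNat = m) ⊆
      V.filter (fun z => D z = m) := by
    intro z hz
    rw [mem_filter, mem_filter] at hz
    rw [mem_filter]
    refine ⟨hz.1.1, ?_⟩
    omega
  exact_mod_cast card_le_card hsub

open scoped Classical in
/-- one cell -/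
lemma cellA (V : Finset α) (idx : α → ι) (p : ι) (P : α → Prop) (d f g : α → ℝ) {thr B η : ℝ}
    (hη : 0 ≤ η) (hB : 0 ≤ B)
    (hg : ∀ z, |g z| ≤ 1) (hthr : 0 < thr)
    (h1 : ∀ z ∈ cel V idx p, P z → 0 < d z → |f z| ≤ B)
    (h2 : ∀ z ∈ cel V idx p, ∀ z' ∈ cel V idx p, P z → P z' → thr ≤ d z → thr ≤ d z' →
      |f z - f z'| ≤ η)
    (h3 : ∀ z ∈ cel V idx p, ∀ z' ∈ cel V idx p, thr ≤ d z → 0 < d z') :
    |∑ z ∈ cel V idx p, (if thr ≤ d z ∧ P z then g z * f z else 0)| ≤
      B * absS V idx p P g +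
      ∑ z ∈ cel V idx p, (η + if 0 < d z ∧ d z < thr then B else 0) :=
  cellA0 _ P d f g hη hB hg hthr h1 h2 h3

/-- cells which are not inside the cone -/
lemma cellB (Ann V : Finset α) (hV : V ⊆ Ann) (idx : α → ι) (P : Finset ι)
    (hmaps : ∀ z ∈ Ann, idx z ∈ P) (S near : α → Prop) (g : α → ℝ) (hg : ∀ z, |g z| ≤ 1)
    (hnear : ∀ w ∈ V, ∀ z ∈ Ann, idx z = idx w → z ∉ V → near w) :
    ∑ p ∈ P, absS V idx p S g ≤ nc V near + FFa Ann V idx P S g := by
  classical
  have e1 : nc V near = ∑ p ∈ P, ((cel (V.filter near) idx p).card : ℝ) := by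
    have h1 := sum_cel (V := V.filter near) (idx := idx) (P := P)
      (fun z hz => hmaps z (hV (mem_filter.1 hz).1)) (fun _ => (1 : ℝ))
    simp only [sum_const, nsmul_eq_mul, mul_one] at h1
    rw [h1]
    unfold nc
    congr!
  unfold FFa
  rw [e1, ← sum_add_distrib]
  refine sum_le_sum fun p _ => ?_
  by_cases hsub : cel Ann idx p ⊆ V
  · have e2 : cel V idx p = cel Ann idx p := by
      ext z
      rw [mem_cel, mem_cel]
      constructor
      · rintro ⟨h1, h2⟩; exact ⟨hV h1, h2⟩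
      · rintro ⟨h1, h2⟩; exact ⟨hsub (mem_cel.2 ⟨h1, h2⟩), h2⟩
    have e3 : absS V idx p S g = absS Ann idx p S g := by unfold absS; rw [e2]
    rw [e3]
    have h0 : (0 : ℝ) ≤ ((cel (V.filter near) idx p).card : ℝ) := by positivity
    by_cases hne : (cel Ann idx p).Nonempty
    · rw [if_pos ⟨hsub, hne⟩]
      linarith
    · rw [not_nonempty_iff_eq_empty] at hne
      have e4 : absS Ann idx p S g = 0 := by
        unfold absS
        rw [hne, filter_empty, sum_empty, abs_zero]
      rw [e4]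
      split_ifs <;> linarith
  · rw [if_neg (fun h => hsub h.1), add_zero]
    obtain ⟨z, hz, hzV⟩ := not_subset.1 hsub
    rw [mem_cel] at hz
    unfold absS
    calc |∑ z ∈ (cel V idx p).filter S, g z|
        ≤ ∑ z ∈ (cel V idx p).filter S, |g z| := abs_sum_le_sum_abs _ _
      _ ≤ ∑ _z ∈ (cel V idx p).filter S, (1 : ℝ) := sum_le_sum fun z _ => hg z
      _ = (((cel V idx p).filter S).card : ℝ) := by
          rw [sum_const, nsmul_eq_mul, mul_one]
      _ ≤ ((cel (V.filter near) idx p).card : ℝ) := by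
          have : (cel V idx p).filter S ⊆ cel (V.filter near) idx p := by
            intro w hw
            rw [mem_filter, mem_cel] at hw
            rw [mem_cel, mem_filter]
            refine ⟨⟨hw.1.1, ?_⟩, hw.1.2⟩
            exact hnear w hw.1.1 z hz.1 (hz.2.trans hw.1.2.symm) hzV
          exact_mod_cast card_le_card this

/-- the sum over the cones -/
lemma cellC (Ann : Finset α) (G : Finset E) (V : E → Finset α) (idx : α → ι) (P : Finset ι)
    (R : Finset α) (S : α → α → Prop) (g : α → ℝ) {B : ℝ} (hB : ∀ e ∈ G, ((V e).card : ℝ) ≤ B)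
    (hB0 : 0 ≤ B)
    (hR : ∀ w, ∃ r ∈ R, ∀ z, (S z w ↔ S z r))
    (hdis : ∀ e ∈ G, ∀ f ∈ G, ∀ z, z ∈ V e → z ∈ V f → e = f) :
    ∑ e ∈ G, ∑ w ∈ V e, FFa Ann (V e) idx P (fun z => S z w) g ≤
      B * ∑ p ∈ P, ∑ r ∈ R, absS Ann idx p (fun z => S z r) g := by
  classical
  set T : ι → ℝ := fun p => ∑ r ∈ R, absS Ann idx p (fun z => S z r) g with hT
  have hT0 : ∀ p, 0 ≤ T p := fun p => sum_nonneg fun r _ => absS_nonneg _ _ _ _ _
  have h1 : ∀ e ∈ G, ∑ w ∈ V e, FFa Ann (V e) idx P (fun z => S z w) g ≤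
      B * ∑ p ∈ P, (if cel Ann idx p ⊆ V e ∧ (cel Ann idx p).Nonempty then T p else 0) := by
    intro e he
    have h2 : ∀ w ∈ V e, FFa Ann (V e) idx P (fun z => S z w) g ≤
        ∑ p ∈ P, (if cel Ann idx p ⊆ V e ∧ (cel Ann idx p).Nonempty then T p else 0) := by
      intro w _
      unfold FFa
      refine sum_le_sum fun p _ => ?_
      by_cases hc : cel Ann idx p ⊆ V e ∧ (cel Ann idx p).Nonempty
      · rw [if_pos hc, if_pos hc]
        obtain ⟨r, hr, hr2⟩ := hR w
        have e3 : absS Ann idx p (fun z => S z w) g = absS Ann idx p (fun z => S z r) g := by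
          unfold absS
          rw [filter_congr (q := fun z => S z r) (fun z _ => hr2 z)]
        rw [e3]
        exact single_le_sum (f := fun r => absS Ann idx p (fun z => S z r) g)
          (fun r _ => absS_nonneg _ _ _ _ _) hr
      · rw [if_neg hc, if_neg hc]
    have hnn : 0 ≤ ∑ p ∈ P, (if cel Ann idx p ⊆ V e ∧
        (cel Ann idx p).Nonempty then T p else 0) := by
      apply sum_nonneg
      intro p _
      split_ifs
      · exact hT0 p
      · exact le_rfl
    calc _ ≤ ∑ _w ∈ V e, ∑ p ∈ P, (if cel Ann idx p ⊆ V e ∧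
        (cel Ann idx p).Nonempty then T p else 0) := sum_le_sum h2
      _ = ((V e).card : ℝ) * _ := by rw [sum_const, nsmul_eq_mul]
      _ ≤ B * _ := mul_le_mul_of_nonneg_right (hB e he) hnn
  refine (sum_le_sum h1).trans ?_
  rw [← mul_sum, sum_comm]
  refine mul_le_mul_of_nonneg_left (sum_le_sum fun p _ => ?_) hB0
  by_cases hne : (cel Ann idx p).Nonempty
  · by_cases hex : ∃ e₀ ∈ G, cel Ann idx p ⊆ V e₀
    · obtain ⟨e₀, he₀, hsub⟩ := hex
      have h3 : ∀ e ∈ G, e ≠ e₀ → (if cel Ann idx p ⊆ V e ∧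
        (cel Ann idx p).Nonempty then T p else 0) = 0 := by
        intro e he hee
        rw [if_neg]
        rintro ⟨k1, z, hz⟩
        exact hee (hdis e he e₀ he₀ z (k1 hz) (hsub hz))
      rw [sum_eq_single_of_mem e₀ he₀ h3, if_pos ⟨hsub, hne⟩]
    · push Not at hex
      have h3 : ∑ e ∈ G, (if cel Ann idx p ⊆ V e ∧
        (cel Ann idx p).Nonempty then T p else 0) = 0 := by
        apply sum_eq_zero
        intro e he
        rw [if_neg (fun h => hex e he h.1)]
      rw [h3]
      exact hT0 p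
  · have h3 : ∑ e ∈ G, (if cel Ann idx p ⊆ V e ∧
        (cel Ann idx p).Nonempty then T p else 0) = 0 := by
      apply sum_eq_zero
      intro e _
      rw [if_neg (fun h => hne h.2)]
    rw [h3]
    exact hT0 p

end Pool.Agent.W125.EC
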